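import Pool.Agent.Q66.SH.Stm

/-! Job SH-GL2 (helper204 for helper66): the gliding hump, case `q > 2`. -/

set_option autoImplicit false

open Filter Topology
open scoped ENNReal

namespace Pool.Agent.Q204.SH

open Pool.Agent.Q66.SH

theorem t_GL2 (hS : S_ST2) (hC : S_CUT) : S_GL2 := by
  intro H _ _ _ b q p hp hq A hT n hn η hη
  have h1 : ∀ τ : ℕ, InS p (A τ) 1 := by
    intro τ
    have h := hT 1 (fun _ => τ) (fun _ => 1) (fun _ => 1) le_rfl
      (by
        intro x hx y hy _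
        simp only [Set.mem_Iio] at hx hy
        omega)
      (fun _ => Or.inl rfl) (fun _ _ _ _ => le_rfl) (fun _ _ => zero_le_one)
    have e1 : (∑ i ∈ Finset.range 1, (((fun _ => (1 : ℝ)) i * (fun _ => (1 : ℝ)) i : ℝ) : ℂ) • A ((fun _ => τ) i)) = A τ := by
      simp
    have e2 : nq q (fun _ => (1 : ℝ)) 1 = 1 := by
      simp [nq]
    rw [e1, e2] at h
    exact h
  have step : ∀ k m : ℕ, ∃ t l : ℕ, m ≤ t ∧ k ≤ l ∧
      N p (A t - (P b l - P b k) * A t * (P b l - P b k)) ≤ η := by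
    intro k m
    obtain ⟨δ, hδ, h2⟩ := hC H b p hp η hη k
    obtain ⟨t, hmt, h3, h4⟩ := hS H b q p hp hq A hT k δ hδ m
    obtain ⟨l, hkl, h5⟩ := h2 (A t) 1 (h1 t) h3 h4
    exact ⟨t, l, hmt, hkl, h5⟩
  choose t l ht hl hN using step
  let st : ℕ → ℕ × ℕ := fun j => Nat.rec (0, 0) (fun _ s => (l s.1 s.2, t s.1 s.2 + 1)) j
  have st_succ : ∀ j, st (j + 1) = (l (st j).1 (st j).2, t (st j).1 (st j).2 + 1) := fun j => rfl
  let τ : ℕ → ℕ := fun j => t (st j).1 (st j).2
  have hτ : StrictMono τ := by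
    apply strictMono_nat_of_lt_succ
    intro j
    have h := ht (st (j + 1)).1 (st (j + 1)).2
    have h2 : (st (j + 1)).2 = τ j + 1 := by rw [st_succ]
    have h3 : τ (j + 1) = t (st (j + 1)).1 (st (j + 1)).2 := rfl
    omega
  refine ⟨fun j => A (τ j), fun j => (st j).1, ?_, fun j _ => h1 _, ?_, ?_⟩
  · apply monotone_nat_of_le_succ
    intro j
    show (st j).1 ≤ (st (j + 1)).1
    rw [st_succ]
    exact hl _ _
  · have h := hT n τ (fun _ => 1) (fun _ => 1) hn (hτ.injective.injOn)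
      (fun _ => Or.inl rfl) (fun _ _ _ _ => le_rfl) (fun _ _ => zero_le_one)
    have e1 : (∑ i ∈ Finset.range n, (((fun _ => (1 : ℝ)) i * (fun _ => (1 : ℝ)) i : ℝ) : ℂ) • A (τ i))
        = ∑ j ∈ Finset.range n, A (τ j) := by
      simp
    have e2 : nq q (fun _ => (1 : ℝ)) n = (n : ℝ) ^ (q⁻¹).toReal := by
      unfold nq
      split_ifs with hq'
      · simp [hq']
      · simp [ENNReal.toReal_inv]
    rw [e1, e2] at h
    exact h
  · intro j _
    show N p (A (τ j) - (P b (st (j + 1)).1 - P b (st j).1) * A (τ j) * (P b (st (j + 1)).1 - P b (st j).1)) ≤ η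
    rw [st_succ]
    exact hN _ _

end Pool.Agent.Q204.SH
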